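import Pool.Agent.W385.GD.Final

/-!
# Products of graphically discrete groups with virtually nilpotent groups (MP_a6ff19_al)

If `Γ` is graphically discrete and `Γ'` is a finitely generated virtually nilpotent group then
`Γ × Γ'` is graphically discrete. In particular this holds for `Γ' = ℤ`, and for all finitely
generated abelian or nilpotent `Γ'`, the special cases which the problem names as open.

The definitions are in `Pool.Agent.W385.GD.Defs`.

Idea of the proof. Suppose that `G` acts geometrically on `X`, let `z` be central in `G` and let
`G/⟨z⟩` be graphically discrete; put `L = Aut X`.
* `z` moves every vertex by at most some `R`. The elements of `L` with finite orbits which move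
  every vertex by at most `2 R` generate a subgroup `P` with finite orbits (a version of
  Dietzmann's lemma), which is normal in `L`.
* If `v` fixes the ball of radius `R` around `x₀` then `z⁻¹ v z v⁻¹` fixes `x₀` and moves every
  vertex by at most `2 R`, so it is in `P`. So the centraliser `L₁` of `z` modulo `P` is open in
  `L`, and it acts on the locally finite graph `Y = X/P⟨z⟩` on which `G/⟨z⟩` acts geometrically.
* So there is a subgroup `Q` of `L₁`, open and normal in `L₁`, with finite orbits on `Y`. By a
  transfer argument the elements of `Q` with finite orbits move every vertex of `X` by at most some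
  constant `r`, and the subgroup generated by all elements of `L` with finite orbits which move
  every vertex by at most `r` is open, normal in `L` and has finite orbits.
-/

set_option autoImplicit false

namespace Pool.Agent.Results.MP_a6ff19_al.VirtuallyNilpotentFactor

open Pool.Agent.W385.GD

/-- If `Γ` is graphically discrete and `Γ'` is finitely generated and virtually nilpotent then
`Γ × Γ'` is graphically discrete. -/
theorem result (Γ Γ' : Type) [Group Γ] [Group Γ'] (hΓ : GraphicallyDiscrete Γ)
    (hfg : Group.FG Γ') (hvn : ∃ N : Subgroup Γ', N.FiniteIndex ∧ Group.IsNilpotent N) :
    GraphicallyDiscrete (Γ × Γ') := by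
  obtain ⟨N, hN, hn⟩ := hvn
  exact gd_prod_virtually_nilpotent Γ Γ' hΓ hfg N hN hn

end Pool.Agent.Results.MP_a6ff19_al.VirtuallyNilpotentFactor
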